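import Pool.Agent.H308R2.ZS.Defs

/-! All statements (tasks).  Task `X`: prove `theorem t_X : S_X` (with the `uses` as hypotheses). -/

set_option autoImplicit false

open scoped ComplexConjugate Kronecker Matrix.Norms.L2Operator
open MeasureTheory

noncomputable section

namespace Pool.Agent.H308R2.ZS

open Pool.Agent.H923R2.FP Pool.Agent.H923R2.FZ

/-! ### A. generators of the dimension drop algebra -/

/-- the unitary path -/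
def S_WU : Prop := ∀ n : ℕ, (∀ p, flp n (flp n p) = p) ∧ star (PF n) = PF n ∧ PF n * PF n = 1 ∧
  (∀ (M : MM n) (p q : Ix n), (PF n * M * PF n) p q = M (flp n p) (flp n q)) ∧
  Continuous (WW n) ∧ WW n 0 = 1 ∧ WW n 1 = PF n ∧
  ∀ t : ℝ, WW n t * star (WW n t) = 1 ∧ star (WW n t) * WW n t = 1

/-- `φ`, `k`, `v` have the prescribed values -/
structure Vals (n : ℕ) (φ : Fin (n + 1) → Fin (n + 1) → dimDrop n) (k : Fin (n + 1) → dimDrop n)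
    (v : dimDrop n) : Prop where
  ph : ∀ i j (t : unitInterval), (φ i j : C(unitInterval, MM n)) t = phf n i j t
  kh : ∀ i (t : unitInterval), (k i : C(unitInterval, MM n)) t = khf n i t
  vh : ∀ t : unitInterval, (v : C(unitInterval, MM n)) t = vhf n t

/-- they exist (continuity and boundary conditions); uses WU -/
def S_PHM : Prop := ∀ n : ℕ, ∃ (φ : Fin (n + 1) → Fin (n + 1) → dimDrop n)
  (k : Fin (n + 1) → dimDrop n) (v : dimDrop n), Vals n φ k v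

/-- the relations -/
structure Rel {E : Type} [Ring E] [StarRing E] [Algebra ℂ E] (n : ℕ)
    (φ : Fin (n + 1) → Fin (n + 1) → E) (k : Fin (n + 1) → E) (v : E) : Prop where
  st : ∀ i j, star (φ i j) = φ j i
  mul : ∀ i j k l, φ i j * φ k l = if j = k then (∑ m, φ m m) * φ i l else 0
  vv : star v * v = 1 - ∑ m, φ m m
  ve : φ 0 0 * v = v
  ks : ∀ i, star (k i) = k i
  kk : ∀ i, k i * k i = φ i i

/-- the relations hold; uses WU -/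
def S_REL : Prop := ∀ (n : ℕ) (φ : Fin (n + 1) → Fin (n + 1) → dimDrop n)
  (k : Fin (n + 1) → dimDrop n) (v : dimDrop n), Vals n φ k v → Rel n φ k v

/-- Rørdam–Winter system from the relations -/
def S_RWB : Prop := ∀ (E B : Type) [Ring E] [StarRing E] [Algebra ℂ E] [CStarAlgebra B] (n : ℕ)
  (φ : Fin (n + 1) → Fin (n + 1) → E) (k : Fin (n + 1) → E) (v : E), Rel n φ k v →
  ∀ d : E →⋆ₐ[ℂ] B, RWS n (fun i j => d (φ i j)) (d v)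

/-- full support; uses WU -/
def S_SPEC : Prop := ∀ (n : ℕ) (φ : Fin (n + 1) → Fin (n + 1) → dimDrop n)
  (k : Fin (n + 1) → dimDrop n) (v : dimDrop n), Vals n φ k v →
  ∀ (B : Type) [CStarAlgebra B] (τ : B →ₗ[ℂ] ℂ), FTS τ → ∀ d : dimDrop n →⋆ₐ[ℂ] B,
  Function.Injective d → FSl τ (d (∑ m, φ m m))

/-- the centre; uses WU -/
def S_CEN : Prop := ∀ (n : ℕ) (φ : Fin (n + 1) → Fin (n + 1) → dimDrop n)
  (k : Fin (n + 1) → dimDrop n) (v : dimDrop n), Vals n φ k v → ∀ t : unitInterval,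
  ((star v * v + ∑ i, φ i 0 * (v * star v) * φ 0 i : dimDrop n) : C(unitInterval, MM n)) t =
    ((t : ℝ) : ℂ) • (1 : MM n)

/-- Stone–Weierstrass for modules over `C([0,1])` -/
def S_MSW : Prop := ∀ (n : ℕ) (S : StarSubalgebra ℂ C(unitInterval, MM n)),
  IsClosed (S : Set C(unitInterval, MM n)) →
  (∃ z ∈ S, ∀ t : unitInterval, z t = ((t : ℝ) : ℂ) • (1 : MM n)) →
  ∀ F : C(unitInterval, MM n), (∀ t, ∃ G ∈ S, G t = F t) → F ∈ S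

/-- the end fibres; uses WU -/
def S_FIB01 : Prop := ∀ (n : ℕ) (φ : Fin (n + 1) → Fin (n + 1) → dimDrop n)
  (k : Fin (n + 1) → dimDrop n) (v : dimDrop n), Vals n φ k v →
  ∀ S : StarSubalgebra ℂ C(unitInterval, MM n), (∀ i j, (φ i j : C(unitInterval, MM n)) ∈ S) →
  (v : C(unitInterval, MM n)) ∈ S → (∀ x, ∃ G ∈ S, G 0 = lft n x) ∧ ∀ y, ∃ G ∈ S, G 1 = rgt n y

/-- the interior fibres; uses WU -/
def S_FIBM : Prop := ∀ (n : ℕ) (φ : Fin (n + 1) → Fin (n + 1) → dimDrop n)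
  (k : Fin (n + 1) → dimDrop n) (v : dimDrop n), Vals n φ k v →
  ∀ S : StarSubalgebra ℂ C(unitInterval, MM n), (∀ i j, (φ i j : C(unitInterval, MM n)) ∈ S) →
  (v : C(unitInterval, MM n)) ∈ S → ∀ t : unitInterval, t ≠ 0 → t ≠ 1 →
  ∀ M : MM n, ∃ G ∈ S, G t = M

/-- generation; uses CEN MSW FIB01 FIBM -/
def S_ZGEN : Prop := ∀ (n : ℕ) (φ : Fin (n + 1) → Fin (n + 1) → dimDrop n)
  (k : Fin (n + 1) → dimDrop n) (v : dimDrop n), Vals n φ k v →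
  ∀ (F : dimDrop n) (ε : ℝ), 0 < ε →
  ∃ y ∈ StarAlgebra.adjoin ℂ ((Set.range fun p : Fin (n + 1) × Fin (n + 1) => φ p.1 p.2) ∪ {v}),
    ‖F - y‖ < ε

/-- basic properties of tracial states -/
def S_TSB : Prop := ∀ (B : Type) [CStarAlgebra B] (τ : B →ₗ[ℂ] ℂ), TS τ →
  (∀ x, ‖τ x‖ ≤ ‖x‖) ∧ ∀ x, τ (star x) = conj (τ x)

/-- the trace of the Jiang–Su algebra is faithful; uses TSB -/
def S_JFT : Prop := ∀ (Z : Type) [CStarAlgebra Z] (τ : Z →ₗ[ℂ] ℂ), IsJiangSu Z τ → FTS τ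

/-- the structure of the Jiang–Su algebra; uses PHM REL RWB SPEC ZGEN -/
def S_JSTR : Prop := ∀ (Z : Type) [CStarAlgebra Z] (τ : Z →ₗ[ℂ] ℂ), IsJiangSu Z τ →
  ∃ (n : ℕ → ℕ) (D : ℕ → StarSubalgebra ℂ Z) (φ : ∀ k, Fin (n k + 1) → Fin (n k + 1) → Z)
    (v : ℕ → Z), Monotone D ∧ Filter.Tendsto n Filter.atTop Filter.atTop ∧
    (∀ k, IsClosed (D k : Set Z)) ∧ Dense (⋃ k, (D k : Set Z)) ∧
    (∀ k i j, φ k i j ∈ D k) ∧ (∀ k, v k ∈ D k) ∧ (∀ k, RWS (n k) (φ k) (v k)) ∧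
    (∀ k, D k ≤ (StarAlgebra.adjoin ℂ ((Set.range fun p : Fin (n k + 1) × Fin (n k + 1) =>
      φ k p.1 p.2) ∪ {v k})).topologicalClosure) ∧
    ∀ (B : Type) [CStarAlgebra B] (τ' : B →ₗ[ℂ] ℂ), FTS τ' → ∀ e : Z →⋆ₐ[ℂ] B,
      Function.Injective e → ∀ k, RWS (n k) (fun i j => e (φ k i j)) (e (v k)) ∧
        FSl τ' (e (∑ m, φ k m m))

/-! ### B. a copy of `C([0,1])` with the Lebesgue trace -/

/-- tracial functionals on matrix algebras -/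
def S_TRMAT : Prop := ∀ (ι : Type) [Fintype ι] [DecidableEq ι] [Nonempty ι]
  (L : Matrix ι ι ℂ →ₗ[ℂ] ℂ), (∀ x y : Matrix ι ι ℂ, L (x * y) = L (y * x)) →
  ∀ x : Matrix ι ι ℂ, L x = ntr x * L 1

/-- traces on the dimension drop algebra vanish on fibrewise trace zero elements;
uses TSB TRMAT -/
def S_TR0 : Prop := ∀ (n : ℕ) (B : Type) [CStarAlgebra B] (τ : B →ₗ[ℂ] ℂ), TS τ →
  ∀ d : dimDrop n →⋆ₐ[ℂ] B, ∀ F : dimDrop n,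
  (∀ t : unitInterval, ntr ((F : C(unitInterval, MM n)) t) = 0) → τ (d F) = 0

/-- traces on the dimension drop algebra are given by measures; uses TR0 -/
def S_TRM : Prop := ∀ (n : ℕ) (B : Type) [CStarAlgebra B] (τ : B →ₗ[ℂ] ℂ), TS τ →
  ∀ d : dimDrop n →⋆ₐ[ℂ] B, ∃ μ : Measure unitInterval, IsProbabilityMeasure μ ∧
  ∀ F : dimDrop n, τ (d F) = ∫ t, ntr ((F : C(unitInterval, MM n)) t) ∂μ

/-- multiplicity of `c` as an eigenvalue -/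
def mlt {ι : Type} [Fintype ι] [DecidableEq ι] (A : Matrix ι ι ℂ) (c : ℝ) : ℕ :=
  Module.finrank ℂ (LinearMap.ker (Matrix.toLin' (A - (c : ℂ) • (1 : Matrix ι ι ℂ))))

/-- a polynomial test for multiplicities -/
def S_MULT : Prop := ∀ (ι : Type) [Fintype ι] [DecidableEq ι] [Nonempty ι] (r : ℕ), 0 < r →
  ∃ P : Matrix ι ι ℂ → ℂ, Continuous P ∧
  (∀ A : Matrix ι ι ℂ, A.IsHermitian → (P A = 0 ↔ ∃ c : ℝ, r < mlt A c)) ∧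
  ∀ h g : Matrix ι ι ℂ, h.IsHermitian → g.IsHermitian → P g ≠ 0 →
    {x : ℝ | P (h + (x : ℂ) • g) = 0}.Finite

/-- an element with small multiplicities in all fibres; uses PHM WU -/
def S_GG : Prop := ∀ n : ℕ, ∃ g : dimDrop n, star g = g ∧
  ∀ (t : unitInterval) (c : ℝ), mlt ((g : C(unitInterval, MM n)) t) c ≤ n + 2

/-- generic perturbations; uses MULT -/
def S_GENR : Prop := ∀ (n r : ℕ), 0 < r → ∀ (h g : C(unitInterval, MM n)), star h = h →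
  star g = g → (∀ (t : unitInterval) (c : ℝ), mlt (g t) c ≤ r) →
  ∀ (μ : Measure unitInterval) [IsProbabilityMeasure μ] (η : ℝ), 0 < η →
  ∃ x : ℝ, 0 < x ∧ x < η ∧ ∀ᵐ t ∂μ, ∀ c : ℝ, mlt (h t + (x : ℂ) • g t) c ≤ r

/-- atoms and multiplicities -/
def S_ATM : Prop := ∀ (n r : ℕ) (h : C(unitInterval, MM n)), star h = h →
  ∀ (μ : Measure unitInterval) [IsProbabilityMeasure μ],
  (∀ᵐ t ∂μ, ∀ c : ℝ, mlt (h t) c ≤ r) → ∀ (c ε : ℝ), 0 < ε →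
  ∃ F : ℝ → ℝ, Continuous F ∧ (∀ t, 0 ≤ F t) ∧ F c = 1 ∧
    (∫ t, ntr (cfc F (h t)) ∂μ).re < (r : ℝ) / ((n + 1) * (n + 2)) + ε

/-- density of elements with small atoms; uses TRM GG GENR ATM -/
def S_DENS : Prop := ∀ (n : ℕ) (B : Type) [CStarAlgebra B] (τ : B →ₗ[ℂ] ℂ), TS τ →
  ∀ d : dimDrop n →⋆ₐ[ℂ] B, ∀ h : dimDrop n, star h = h → ∀ η : ℝ, 0 < η →
  ∃ y : dimDrop n, star y = y ∧ ‖y - h‖ < η ∧ AT τ (2 / (n + 1)) (d y)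

/-- the condition on atoms is open -/
def S_OPN : Prop := ∀ (B : Type) [CStarAlgebra B] (τ : B →ₗ[ℂ] ℂ), TS τ → (∀ x, ‖τ x‖ ≤ ‖x‖) →
  ∀ (x : B) (ε : ℝ), star x = x → AT τ ε x →
  ∃ δ : ℝ, 0 < δ ∧ ∀ y : B, star y = y → ‖y - x‖ < δ → AT τ ε y

/-- Baire; uses OPN -/
def S_BAI : Prop := ∀ (B : Type) [CStarAlgebra B] (τ : B →ₗ[ℂ] ℂ), TS τ → (∀ x, ‖τ x‖ ≤ ‖x‖) →
  (∀ (ε : ℝ), 0 < ε → ∀ x : B, star x = x → ∀ η : ℝ, 0 < η →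
    ∃ y : B, star y = y ∧ ‖y - x‖ < η ∧ AT τ ε y) →
  ∃ x : B, star x = x ∧ ∀ ε : ℝ, 0 < ε → AT τ ε x

/-- density in the Jiang–Su algebra; uses DENS TSB -/
def S_DNZ : Prop := ∀ (Z : Type) [CStarAlgebra Z] (τ : Z →ₗ[ℂ] ℂ), IsJiangSu Z τ →
  ∀ (ε : ℝ), 0 < ε → ∀ x : Z, star x = x → ∀ η : ℝ, 0 < η →
    ∃ y : Z, star y = y ∧ ‖y - x‖ < η ∧ AT τ ε y

/-- the law of a self-adjoint element -/
def S_LAWM : Prop := ∀ (B : Type) [CStarAlgebra B] (τ : B →ₗ[ℂ] ℂ), FTS τ → ∀ x : B, star x = x →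
  ∃ μ : Measure ℝ, IsProbabilityMeasure μ ∧ μ (Set.Icc (-‖x‖) ‖x‖)ᶜ = 0 ∧
  ∀ F : ℝ → ℝ, Continuous F → τ (cfc F x) = ((∫ t, F t ∂μ : ℝ) : ℂ)

/-- the distribution function -/
def S_CDF : Prop := ∀ μ : Measure ℝ, IsProbabilityMeasure μ → (∀ c : ℝ, μ {c} = 0) →
  ∃ G : C(ℝ, unitInterval), μ.map G = (volume : Measure unitInterval)

/-- from an element without atoms to `C([0,1])`; uses LAWM CDF -/
def S_LBX : Prop := ∀ (B : Type) [CStarAlgebra B] (τ : B →ₗ[ℂ] ℂ), FTS τ → ∀ x : B, star x = x →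
  (∀ ε : ℝ, 0 < ε → AT τ ε x) → ∃ c : C(unitInterval, ℂ) →⋆ₐ[ℂ] B, ∀ f, τ (c f) = leb f

/-- the Lebesgue subalgebra of the Jiang–Su algebra; uses JFT BAI DNZ LBX -/
def S_LEB : Prop := ∀ (Z : Type) [CStarAlgebra Z] (τ : Z →ₗ[ℂ] ℂ), IsJiangSu Z τ →
  ∃ c : C(unitInterval, ℂ) →⋆ₐ[ℂ] Z, ∀ f, τ (c f) = leb f

/-! ### C. existence of reduced free products -/

/-- `ℓ²(ι)` -/
abbrev L2 (ι : Type) : Type := lp (fun _ : ι => ℂ) 2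

open Classical in
/-- basis vectors -/
def dlt {ι : Type} (a : ι) : L2 ι := lp.single 2 a 1

/-- GNS representation with an orthonormal basis containing the vacuum -/
def S_GNSB : Prop := ∀ (D : Type) [CStarAlgebra D] (t : D →ₗ[ℂ] ℂ), FTS t →
  ∃ (ι : Type) (o : ι) (π : D →⋆ₐ[ℂ] (L2 ι →L[ℂ] L2 ι)), (∀ x, π x (dlt o) o = t x) ∧
    ∀ (u : L2 ι) (ε : ℝ), 0 < ε → ∃ x, ‖π x (dlt o) - u‖ < ε

/-- amplification: `T ↦ T ⊗ 1` on `ℓ²(ι × K) = ℓ²(W)` -/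
def S_AMP : Prop := ∀ (ι K W : Type) (β : W ≃ ι × K),
  ∃ Φ : (L2 ι →L[ℂ] L2 ι) →⋆ₐ[ℂ] (L2 W →L[ℂ] L2 W), ∀ (T : L2 ι →L[ℂ] L2 ι) (u : L2 W) (k : K)
    (s : L2 ι), (∀ a, s a = u (β.symm (a, k))) → ∀ a, Φ T u (β.symm (a, k)) = T s a

/-- reduced words -/
def Wd {J : Type} (ι : J → Type) (o : ∀ j, ι j) : Type :=
  {w : List (Σ j, ι j) // (∀ z ∈ w, z.2 ≠ o z.1) ∧ w.IsChain fun x y => x.1 ≠ y.1}

/-- the empty word -/
def em {J : Type} (ι : J → Type) (o : ∀ j, ι j) : Wd ι o := ⟨[], by simp, List.IsChain.nil⟩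

/-- the word does not start with an element of index `j` -/
def NH {J : Type} {ι : J → Type} {o : ∀ j, ι j} (j : J) (w : Wd ι o) : Prop :=
  ∀ z ∈ w.1.head?, z.1 ≠ j

/-- the decomposition of words -/
structure BT {J : Type} (ι : J → Type) (o : ∀ j, ι j) (j : J)
    (β : Wd ι o ≃ ι j × {w : Wd ι o // NH j w}) : Prop where
  b0 : ∀ k, β.symm (o j, k) = k.1
  b1 : ∀ a, a ≠ o j → ∀ k, (β.symm (a, k)).1 = ⟨j, a⟩ :: k.1.1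

/-- it exists -/
def S_BETA : Prop := ∀ (J : Type) (ι : J → Type) (o : ∀ j, ι j) (j : J),
  ∃ β : Wd ι o ≃ ι j × {w : Wd ι o // NH j w}, BT ι o j β

/-- free product representation -/
structure FPR {J : Type} (D : J → Type) [∀ j, CStarAlgebra (D j)] (t : ∀ j, D j →ₗ[ℂ] ℂ)
    (ι : J → Type) (o : ∀ j, ι j) (π : ∀ j, D j →⋆ₐ[ℂ] (L2 (ι j) →L[ℂ] L2 (ι j)))
    (β : ∀ j, Wd ι o ≃ ι j × {w : Wd ι o // NH j w})
    (e : ∀ j, D j →⋆ₐ[ℂ] (L2 (Wd ι o) →L[ℂ] L2 (Wd ι o))) : Prop where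
  vac : ∀ j x, π j x (dlt (o j)) (o j) = t j x
  den : ∀ j (u : L2 (ι j)) (ε : ℝ), 0 < ε → ∃ x, ‖π j x (dlt (o j)) - u‖ < ε
  bt : ∀ j, BT ι o j (β j)
  sl : ∀ j (x : D j) (u : L2 (Wd ι o)) k (s : L2 (ι j)), (∀ a, s a = u ((β j).symm (a, k))) →
    ∀ a, e j x u ((β j).symm (a, k)) = π j x s a

/-- vacuum expectations -/
def S_VAC : Prop := ∀ (J : Type) (D : J → Type) [∀ j, CStarAlgebra (D j)]
  (t : ∀ j, D j →ₗ[ℂ] ℂ) (ι : J → Type) (o : ∀ j, ι j)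
  (π : ∀ j, D j →⋆ₐ[ℂ] (L2 (ι j) →L[ℂ] L2 (ι j)))
  (β : ∀ j, Wd ι o ≃ ι j × {w : Wd ι o // NH j w})
  (e : ∀ j, D j →⋆ₐ[ℂ] (L2 (Wd ι o) →L[ℂ] L2 (Wd ι o))), FPR D t ι o π β e →
  ∀ j x, e j x (dlt (em ι o)) (em ι o) = t j x

/-- freeness -/
def S_FRV : Prop := ∀ (J : Type) (D : J → Type) [∀ j, CStarAlgebra (D j)]
  (t : ∀ j, D j →ₗ[ℂ] ℂ) (ι : J → Type) (o : ∀ j, ι j)
  (π : ∀ j, D j →⋆ₐ[ℂ] (L2 (ι j) →L[ℂ] L2 (ι j)))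
  (β : ∀ j, Wd ι o ≃ ι j × {w : Wd ι o // NH j w})
  (e : ∀ j, D j →⋆ₐ[ℂ] (L2 (Wd ι o) →L[ℂ] L2 (Wd ι o))), FPR D t ι o π β e →
  ∀ w : List (Σ j, D j), w ≠ [] → (∀ z ∈ w, t z.1 z.2 = 0) → w.IsChain (fun x y => x.1 ≠ y.1) →
  (w.map fun z => e z.1 z.2).prod (dlt (em ι o)) (em ι o) = 0

/-- the vacuum is cyclic -/
def S_CYC : Prop := ∀ (J : Type) (D : J → Type) [∀ j, CStarAlgebra (D j)]
  (t : ∀ j, D j →ₗ[ℂ] ℂ) (ι : J → Type) (o : ∀ j, ι j)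
  (π : ∀ j, D j →⋆ₐ[ℂ] (L2 (ι j) →L[ℂ] L2 (ι j)))
  (β : ∀ j, Wd ι o ≃ ι j × {w : Wd ι o // NH j w})
  (e : ∀ j, D j →⋆ₐ[ℂ] (L2 (Wd ι o) →L[ℂ] L2 (Wd ι o))), FPR D t ι o π β e →
  ∀ (u : L2 (Wd ι o)) (ε : ℝ), 0 < ε →
  ∃ X ∈ StarAlgebra.adjoin ℂ (⋃ j, Set.range (e j)), ‖X (dlt (em ι o)) - u‖ < ε

/-- free products of traces are traces -/
def S_TRC : Prop := ∀ (J B : Type) [CStarAlgebra B] (τ : B →ₗ[ℂ] ℂ)
  (S : J → StarSubalgebra ℂ B), (∀ x, ‖τ x‖ ≤ ‖x‖) → τ 1 = 1 → FreeFam τ S →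
  (∀ j, ∀ x ∈ S j, ∀ y ∈ S j, τ (x * y) = τ (y * x)) →
  (StarAlgebra.adjoin ℂ (⋃ j, (S j : Set B))).topologicalClosure = ⊤ →
  ∀ x y, τ (x * y) = τ (y * x)

/-- a cyclic tracial vector is separating -/
def S_FAI : Prop := ∀ (H : Type) [NormedAddCommGroup H] [InnerProductSpace ℂ H] [CompleteSpace H]
  (A : StarSubalgebra ℂ (H →L[ℂ] H)) (Ω : H),
  (∀ (u : H) (ε : ℝ), 0 < ε → ∃ X ∈ A, ‖X Ω - u‖ < ε) →
  (∀ X ∈ A, ∀ Y ∈ A, inner ℂ Ω ((X * Y) Ω) = inner ℂ Ω ((Y * X) Ω)) →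
  ∀ X ∈ A, inner ℂ Ω ((star X * X) Ω) = 0 → X = 0

/-- existence of reduced free products; uses GNSB AMP BETA VAC FRV CYC TRC FAI -/
def S_EX : Prop := ∀ (J : Type) (D : J → Type) [∀ j, CStarAlgebra (D j)]
  (t : ∀ j, D j →ₗ[ℂ] ℂ), (∀ j, FTS (t j)) →
  ∃ (A : Type) (_ : CStarAlgebra A) (τ : A →ₗ[ℂ] ℂ) (e : ∀ j, D j →⋆ₐ[ℂ] A),
    RFP D (fun j => t j) τ e

end Pool.Agent.H308R2.ZS
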