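import Pool.Agent.H308R2.ZS.TRWAZ
import Pool.Agent.H764ZS.ZS_SPEC
import Pool.Agent.H7ZS.ZS_PHM
import Pool.Agent.H715Z.ZS_MSW
import Pool.Agent.H348R3.ZS_CEN
import Pool.Agent.H700R2.ZS_REL
import Pool.Agent.H204R2.ZS_GENR
import Pool.Agent.H158R2.ZS_ATM
import Pool.Agent.H571R2.ZS_TRMAT
import Pool.Agent.H644R2.ZS_JFT
import Pool.Agent.H571R2.ZS_TRM
import Pool.Agent.H804Z.ZS_TR0
import Pool.Agent.H141R5.ZS_DENS
import Pool.Agent.H200R2.ZS_GG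
import Pool.Agent.H615R2.ZS_JSTR
import Pool.Agent.H715Z.ZS_BAI
import Pool.Agent.Helper750.ZS.ZS_LAWM
import Pool.Agent.H512R3.ZS_LEB
import Pool.Agent.H930R2.ZS_RWB
import Pool.Agent.H571R2.ZS_CDF
import Pool.Agent.H715Z.ZS_TSB
import Pool.Agent.H930R2.ZS_OPN
import Pool.Agent.H930R2.ZS_WU
import Pool.Agent.H853R2.ZS_MULT
import Pool.Agent.H930R2.ZS_ZGEN
import Pool.Agent.H141R5.ZS_DNZ
import Pool.Agent.H208L.ZS_LBX
import Pool.Agent.H715Z.ZS_FIB01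
import Pool.Agent.H715Z.ZS_FIBM

/-! All parts put together. -/

set_option autoImplicit false

namespace Pool.Agent.H308R2.ZS

theorem all_WU : S_WU := T_WU.t_WU
theorem all_PHM : S_PHM := T_PHM.t_PHM all_WU
theorem all_REL : S_REL := T_REL.t_REL all_WU
theorem all_RWB : S_RWB := T_RWB.t_RWB
theorem all_SPEC : S_SPEC := T_SPEC.t_SPEC all_WU
theorem all_CEN : S_CEN := T_CEN.t_CEN all_WU
theorem all_MSW : S_MSW := T_MSW.t_MSW
theorem all_TSB : S_TSB := T_TSB.t_TSB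
theorem all_JFT : S_JFT := T_JFT.t_JFT all_TSB
theorem all_TRMAT : S_TRMAT := T_TRMAT.t_TRMAT
theorem all_TR0 : S_TR0 := T_TR0.t_TR0 all_TSB all_TRMAT
theorem all_TRM : S_TRM := T_TRM.t_TRM all_TR0
theorem all_MULT : S_MULT := T_MULT.t_MULT
theorem all_GG : S_GG := T_GG.t_GG all_PHM all_WU
theorem all_GENR : S_GENR := T_GENR.t_GENR all_MULT
theorem all_ATM : S_ATM := T_ATM.t_ATM
theorem all_DENS : S_DENS := T_DENS.t_DENS all_TRM all_GG all_GENR all_ATM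
theorem all_OPN : S_OPN := T_OPN.t_OPN
theorem all_BAI : S_BAI := T_BAI.t_BAI all_OPN
theorem all_LAWM : S_LAWM := T_LAWM.t_LAWM
theorem all_CDF : S_CDF := T_CDF.t_CDF
theorem all_DNZ : S_DNZ := T_DNZ.t_DNZ all_DENS all_TSB
theorem all_LBX : S_LBX := T_LBX.t_LBX all_LAWM all_CDF
theorem all_LEB : S_LEB := T_LEB.t_LEB all_JFT all_BAI all_DNZ all_LBX
theorem all_FIB01 : S_FIB01 := T_FIB01.t_FIB01 all_WU
theorem all_FIBM : S_FIBM := T_FIBM.t_FIBM all_WU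
theorem all_ZGEN : S_ZGEN := T_ZGEN.t_ZGEN all_CEN all_MSW all_FIB01 all_FIBM
theorem all_JSTR : S_JSTR := T_JSTR.t_JSTR all_PHM all_REL all_RWB all_SPEC all_ZGEN
theorem all_RWAZ : S_RWAZ := t_RWAZ all_JFT all_JSTR
theorem all_SEPZ : S_SEPZ := t_SEPZ

end Pool.Agent.H308R2.ZS
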