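import Pool.Agent.H308R2.ZS.Closed
import Pool.Agent.H923R2.FZ.JS

/-! `IsJS` (helper923) implies `IsJiangSu`. -/

set_option autoImplicit false

open scoped ComplexConjugate ComplexOrder Kronecker Matrix.Norms.L2Operator

noncomputable section

namespace Pool.Agent.H308R2.ZS

open Pool.Agent.H923R2.FP Pool.Agent.H923R2.FZ

lemma ddrop_eq (n : ℕ) : ddrop (n + 1) (n + 2) = dimDrop n := rfl

lemma TS_of_IsTS {Z : Type} [CStarAlgebra Z] {t : Z →ₗ[ℂ] ℂ} (h : IsTS t) : TS t := by
  refine ⟨h.1, h.2.1, fun x => ?_⟩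
  have := h.2.2 x
  rw [Complex.le_def] at this
  exact ⟨by simpa using this.1, by simpa using this.2.symm⟩

lemma IsTS_of_TS {Z : Type} [CStarAlgebra Z] {t : Z →ₗ[ℂ] ℂ} (h : TS t) : IsTS t := by
  refine ⟨h.one, h.comm, fun x => ?_⟩
  rw [Complex.le_def]
  exact ⟨by simpa using (h.pos x).1, by simpa using (h.pos x).2.symm⟩

/-- the bridge -/
theorem bridge (Z : Type) [CStarAlgebra Z] (hZ : IsJS Z) (t : Z →ₗ[ℂ] ℂ) (ht : IsTS t) :
    IsJiangSu Z t := by
  refine ⟨?_, TS_of_IsTS ht, ?_, ?_⟩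
  · intro I hI hid
    let J : TwoSidedIdeal Z := TwoSidedIdeal.mk' (I : Set Z) I.zero_mem
      (fun hx hy => I.add_mem hx hy) (fun hx => I.neg_mem hx)
      (fun {x y} hy => by simpa using hid y hy x 1)
      (fun {x y} hx => by simpa using hid x hx 1 y)
    have hmem : ∀ x, x ∈ J ↔ x ∈ I := fun x => by
      simp only [J, TwoSidedIdeal.mem_mk', SetLike.mem_coe]
    have hJ : (J : Set Z) = (I : Set Z) := by
      ext x
      exact hmem x
    rcases hZ.simple J (by rw [hJ]; exact hI) with h | h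
    · left
      ext x
      rw [← hmem, h, TwoSidedIdeal.mem_bot, Submodule.mem_bot]
    · right
      ext x
      rw [← hmem, h]
      simp
  · intro τ' h'
    exact hZ.trace.unique (IsTS_of_TS h') ht
  · obtain ⟨n, D, hn, hm, hiso, hden⟩ := hZ.lim
    have hcl : ∀ k, IsClosed (D k : Set Z) := by
      intro k
      obtain ⟨Θ⟩ := hiso k
      have hc : IsClosed (ddrop (n k + 1) (n k + 2) : Set C(unitInterval,
        Matrix (Fin (n k + 1) × Fin (n k + 2)) (Fin (n k + 1) × Fin (n k + 2)) ℂ)) :=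
        dimDrop_closed (n k)
      have hcs : CompleteSpace (ddrop (n k + 1) (n k + 2)) := hc.completeSpace_coe
      let Ψ : ddrop (n k + 1) (n k + 2) →⋆ₐ[ℂ] Z :=
        (D k).subtype.comp ((Θ.symm : ddrop (n k + 1) (n k + 2) ≃⋆ₐ[ℂ] D k) :
          ddrop (n k + 1) (n k + 2) →⋆ₐ[ℂ] D k)
      have hinj : Function.Injective Ψ := by
        intro x y hxy
        have : Θ.symm x = Θ.symm y := Subtype.ext hxy
        exact Θ.symm.injective this
      have hiso' : Isometry Ψ := NonUnitalStarAlgHom.isometry Ψ hinj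
      have hr : Set.range Ψ = (D k : Set Z) := by
        ext z
        constructor
        · rintro ⟨x, rfl⟩
          exact (Θ.symm x).2
        · intro hz
          refine ⟨Θ ⟨z, hz⟩, ?_⟩
          change ((Θ.symm (Θ ⟨z, hz⟩) : D k) : Z) = z
          rw [StarAlgEquiv.symm_apply_apply]
      rw [← hr]
      exact hiso'.isClosedEmbedding.isClosed_range
    refine ⟨n, D, hm, hn, hcl, fun k => ?_, ?_⟩
    · obtain ⟨Θ⟩ := hiso k
      exact ⟨Θ.symm⟩
    · have h1 : ((⨆ k, D k : StarSubalgebra ℂ Z) : Set Z) = ⋃ k, (D k : Set Z) :=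
        StarSubalgebra.coe_iSup_of_directed (hm.directed_le)
      have h2 : closure ((⨆ k, D k : StarSubalgebra ℂ Z) : Set Z) = Set.univ := by
        have := congrArg (fun S : StarSubalgebra ℂ Z => (S : Set Z)) hden
        simpa using this
      rw [h1] at h2
      exact dense_iff_closure_eq.2 h2

end Pool.Agent.H308R2.ZS
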