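import Pool.Agent.H129R2.FZ_VST
import Pool.Agent.H130.FZ_FACT
import Pool.Agent.H142R2.FZ_LAWV
import Pool.Agent.H154R5.FP_T1
import Pool.Agent.H157R2.FP_N4
import Pool.Agent.H202FP.FP_STAR
import Pool.Agent.H205R2.FZ.FZ_EXC
import Pool.Agent.H205R2.FZ.FZ_EXG
import Pool.Agent.H205R2.FZ.FZ_EXL
import Pool.Agent.H213R2.FP_ABS1
import Pool.Agent.H21R.FZ_OZ
import Pool.Agent.H222R2.FZ_MEAS
import Pool.Agent.H237R2.FP_SEP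
import Pool.Agent.H248.FZ_EXW
import Pool.Agent.H254R2.FP_GADC
import Pool.Agent.H255R3.FZ_V0
import Pool.Agent.H265R2.FZ_FR2
import Pool.Agent.H272R2.FZ_GNSB
import Pool.Agent.H272R2.FZ_MAINZ
import Pool.Agent.H278R2.FP_C2
import Pool.Agent.H278R2.FP_C3
import Pool.Agent.H278R2.FP_C4
import Pool.Agent.H278R2.FP_C6
import Pool.Agent.H290R2.FZ_CJZ
import Pool.Agent.H291R2.FZ.LEBF
import Pool.Agent.H291R2.FZ.SEPW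
import Pool.Agent.H303R2.FZ.FZ_MV
import Pool.Agent.H308R2.ZS.EXF
import Pool.Agent.H311R.FP_T2
import Pool.Agent.H339R2.FZ_QN
import Pool.Agent.H344R3.FP_DIST
import Pool.Agent.H355R3.FZ_SPL
import Pool.Agent.H357R4.FP_NRM
import Pool.Agent.H357R4.FZ_SRB
import Pool.Agent.H368R5.FP_BND
import Pool.Agent.H386R6.FZ_R0
import Pool.Agent.H409R2.FP_UNG
import Pool.Agent.H419R2.FZ_INV
import Pool.Agent.H439FZ.FZ_ABSE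
import Pool.Agent.H445.FZ_HSTEP
import Pool.Agent.H45FP.FP_ABS2
import Pool.Agent.H475R2.FP_F1b
import Pool.Agent.H479R2.FP_MOM
import Pool.Agent.H495R3.FZ_ABS4E
import Pool.Agent.H508R2.FP.FP_MID
import Pool.Agent.H532R2.FP_LIP
import Pool.Agent.H535R2.FP_LAW
import Pool.Agent.H536R2.FP_UNIQ
import Pool.Agent.H541FP.FP_FLOW
import Pool.Agent.H578R2.FZ_R1a
import Pool.Agent.H584R2.FP923.FP_ODE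
import Pool.Agent.H58R2.FP_DERSD
import Pool.Agent.H595R2.FZ_R1
import Pool.Agent.H598R3.FP_N3
import Pool.Agent.H598R3.FP_STAGE
import Pool.Agent.H598R3.FZ_EX
import Pool.Agent.H598R3.FZ_GNSF
import Pool.Agent.H598R3.FZ_POSE
import Pool.Agent.H619R2.FP_BACK
import Pool.Agent.H61R2.FP_CW
import Pool.Agent.H61R2.FZ_ABSIS
import Pool.Agent.H61R2.FZ_TRC
import Pool.Agent.H641R2.FZ_ABSI
import Pool.Agent.H662R2.FP_F1a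
import Pool.Agent.H66R2.FP.FP_TRF
import Pool.Agent.H672R2.FP.SDF
import Pool.Agent.H672R2.FZ_ZERO
import Pool.Agent.H674R2.FZ_UNG2
import Pool.Agent.H726FZ.FZ_CONJ
import Pool.Agent.H749.FP_F1
import Pool.Agent.H75R6.FP_WDER
import Pool.Agent.H778R2.FP_ABS3
import Pool.Agent.H778R2.FP_AD
import Pool.Agent.H784R2.FZ.FZ_HOT
import Pool.Agent.H794R2.FP_TI
import Pool.Agent.H794R2.FZ_R0b
import Pool.Agent.H797R2.FP_N1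
import Pool.Agent.H797R2.FP_N2
import Pool.Agent.H797R2.FP_PH
import Pool.Agent.H79R2.FP_HX
import Pool.Agent.H807FP.FP_C5
import Pool.Agent.H821R6.FZ_AMP
import Pool.Agent.H821R6.FZ_CLO
import Pool.Agent.H821R6.FZ_SUB
import Pool.Agent.H844R4.FP.PHI
import Pool.Agent.H896.FZ_POSI
import Pool.Agent.H898R5.FZ.LIM2
import Pool.Agent.H89R2.FP_GRP
import Pool.Agent.H90.FP_C1
import Pool.Agent.H909R2.FP_EPS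
import Pool.Agent.H911R5.FZ_RDG
import Pool.Agent.H923R2.FZ.T_CJF
import Pool.Agent.H923R2.FZ.T_QNT
import Pool.Agent.H940D.FZ_GRP2
import Pool.Agent.H940D.FZ_HUW
import Pool.Agent.H955R2.FP_FORM
import Pool.Agent.H96R3.FP_NI
import Pool.Agent.H991R2.FZ_FCB
import Pool.Agent.H997R2.FP_KEY
import Pool.Agent.H9R5.FZ.FZ_POS
import Pool.Agent.Helper275.FZ_REPL
import Pool.Agent.H308R2.ZS.FinJS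

namespace Pool.Agent.H308R2.ZS.Chk

theorem a_FZ_GRP2 : Pool.Agent.H923R2.FZ.S_GRP2 := Pool.Agent.H923R2.FZ.T_GRP2.t_GRP2 
theorem a_FZ_CLO : Pool.Agent.H923R2.FZ.S_CLO := Pool.Agent.H923R2.FZ.T_CLO.t_CLO 
theorem a_FP_PHI : Pool.Agent.H923R2.FP.S_PHI := Pool.Agent.H923R2.FP.T_PHI.t_PHI 
theorem a_FP_GADC : Pool.Agent.H923R2.FP.S_GADC := Pool.Agent.H923R2.FP.T_GADC.t_GADC 
theorem a_FZ_HUW : Pool.Agent.H923R2.FZ.S_HUW := Pool.Agent.H923R2.FZ.T_HUW.t_HUW a_FZ_GRP2 a_FZ_CLO a_FP_PHI a_FP_GADC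
theorem a_FP_T1 : Pool.Agent.H923R2.FP.S_T1 := Pool.Agent.H923R2.FP.T_T1.t_T1 
theorem a_FZ_RDG : Pool.Agent.H923R2.FZ.S_RDG := Pool.Agent.H923R2.FZ.T_RDG.t_RDG a_FP_T1
theorem a_FZ_SRB : Pool.Agent.H923R2.FZ.S_SRB := Pool.Agent.H923R2.FZ.T_SRB.t_SRB a_FZ_RDG
theorem a_FZ_INV : Pool.Agent.H923R2.FZ.S_INV := Pool.Agent.H923R2.FZ.T_INV.t_INV 
theorem a_FZ_R0 : Pool.Agent.H923R2.FZ.S_R0 := Pool.Agent.H923R2.FZ.T_R0.t_R0 a_FZ_INV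
theorem a_FZ_R0b : Pool.Agent.H923R2.FZ.S_R0b := Pool.Agent.H923R2.FZ.T_R0b.t_R0b 
theorem a_FZ_R1a : Pool.Agent.H923R2.FZ.S_R1a := Pool.Agent.H923R2.FZ.T_R1a.t_R1a 
theorem a_FZ_R1 : Pool.Agent.H923R2.FZ.S_R1 := Pool.Agent.H923R2.FZ.T_R1.t_R1 a_FZ_R0 a_FZ_R1a
theorem a_FP_T2 : Pool.Agent.H923R2.FP.S_T2 := Pool.Agent.H923R2.FP.T_T2.t_T2 
theorem a_FZ_FR2 : Pool.Agent.H923R2.FZ.S_FR2 := Pool.Agent.H923R2.FZ.T_FR2.t_FR2 a_FP_T1 a_FP_T2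
theorem a_FZ_CJF : Pool.Agent.H923R2.FZ.S_CJF := Pool.Agent.H923R2.FZ.T_CJF.t_CJF 
theorem a_FZ_FCB : Pool.Agent.H923R2.FZ.S_FCB := Pool.Agent.H923R2.FZ.T_FCB.t_FCB a_FZ_FR2 a_FZ_CJF
theorem a_FZ_FACT : Pool.Agent.H923R2.FZ.S_FACT := Pool.Agent.H923R2.FZ.T_FACT.t_FACT 
theorem a_FZ_MV : Pool.Agent.H923R2.FZ.S_MV := Pool.Agent.H923R2.FZ.T_MV.t_MV a_FZ_FACT
theorem a_FZ_POSI : Pool.Agent.H923R2.FZ.S_POSI := Pool.Agent.H923R2.FZ.T_POSI.t_POSI 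
theorem a_FZ_POSE : Pool.Agent.H923R2.FZ.S_POSE := Pool.Agent.H923R2.FZ.T_POSE.t_POSE 
theorem a_FZ_POS : Pool.Agent.H923R2.FZ.S_POS := Pool.Agent.H923R2.FZ.T_POS.t_POS a_FZ_POSI a_FZ_POSE
theorem a_FZ_OZ : Pool.Agent.H923R2.FZ.S_OZ := Pool.Agent.H923R2.FZ.T_OZ.t_OZ 
theorem a_FZ_VST : Pool.Agent.H923R2.FZ.S_VST := Pool.Agent.H923R2.FZ.T_VST.t_VST 
theorem a_FZ_V0 : Pool.Agent.H923R2.FZ.S_V0 := Pool.Agent.H923R2.FZ.T_V0.t_V0 a_FZ_FACT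
theorem a_FZ_LAWV : Pool.Agent.H923R2.FZ.S_LAWV := Pool.Agent.H923R2.FZ.T_LAWV.t_LAWV 
theorem a_FZ_MEAS : Pool.Agent.H923R2.FZ.S_MEAS := Pool.Agent.H923R2.FZ.T_MEAS.t_MEAS 
theorem a_FZ_QN : Pool.Agent.H923R2.FZ.S_QN := Pool.Agent.H923R2.FZ.T_QN.t_QN 
theorem a_FZ_QNT : Pool.Agent.H923R2.FZ.S_QNT := Pool.Agent.H923R2.FZ.T_QNT.t_QNT a_FZ_MEAS a_FZ_QN a_FZ_LAWV
theorem a_FZ_CONJ : Pool.Agent.H923R2.FZ.S_CONJ := Pool.Agent.H923R2.FZ.T_CONJ.t_CONJ a_FZ_POS a_FZ_OZ a_FZ_VST a_FZ_V0 a_FZ_LAWV a_FZ_QNT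
theorem a_FZ_SUB : Pool.Agent.H923R2.FZ.S_SUB := Pool.Agent.H923R2.FZ.T_SUB.t_SUB 
theorem a_FZ_CJZ : Pool.Agent.H923R2.FZ.S_CJZ := Pool.Agent.H923R2.FZ.T_CJZ.t_CJZ a_FZ_HUW a_FZ_SRB a_FZ_R0 a_FZ_R0b a_FZ_R1 a_FZ_FCB a_FZ_MV a_FZ_CONJ a_FZ_SUB
theorem a_FZ_UNG2 : Pool.Agent.H923R2.FZ.S_UNG2 := Pool.Agent.H923R2.FZ.T_UNG2.t_UNG2 
theorem a_FZ_REPL : Pool.Agent.H923R2.FZ.S_REPL := Pool.Agent.H923R2.FZ.T_REPL.t_REPL a_FZ_GRP2 a_FZ_CLO a_FZ_UNG2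
theorem a_FZ_HSTEP : Pool.Agent.H923R2.FZ.S_HSTEP := Pool.Agent.H923R2.FZ.T_HSTEP.t_HSTEP a_FZ_REPL a_FZ_SUB
theorem a_FZ_HOT : Pool.Agent.H923R2.FZ.S_HOT := Pool.Agent.H923R2.FZ.T_HOT.t_HOT a_FZ_HSTEP
theorem a_FP_GRP : Pool.Agent.H923R2.FP.S_GRP := Pool.Agent.H923R2.FP.T_GRP.t_GRP 
theorem a_FP_SDF : Pool.Agent.H923R2.FP.S_SDF := Pool.Agent.H923R2.FP.T_SDF.t_SDF 
theorem a_FP_ABS1 : Pool.Agent.H923R2.FP.S_ABS1 := Pool.Agent.H923R2.FP.T_ABS1.t_ABS1 a_FP_GRP a_FP_SDF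
theorem a_FP_ABS2 : Pool.Agent.H923R2.FP.S_ABS2 := Pool.Agent.H923R2.FP.T_ABS2.t_ABS2 a_FP_PHI a_FP_GADC
theorem a_FP_ABS3 : Pool.Agent.H923R2.FP.S_ABS3 := Pool.Agent.H923R2.FP.T_ABS3.t_ABS3 
theorem a_FP_UNG : Pool.Agent.H923R2.FP.S_UNG := Pool.Agent.H923R2.FP.T_UNG.t_UNG 
theorem a_FP_ABS4E : Pool.Agent.H923R2.FP.S_ABS4E := Pool.Agent.H923R2.FP.T_ABS4E.t_ABS4E a_FP_UNG
theorem a_FP_C3 : Pool.Agent.H923R2.FP.S_C3 := Pool.Agent.H923R2.FP.T_C3.t_C3 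
theorem a_FP_C2 : Pool.Agent.H923R2.FP.S_C2 := Pool.Agent.H923R2.FP.T_C2.t_C2 
theorem a_FP_C4 : Pool.Agent.H923R2.FP.S_C4 := Pool.Agent.H923R2.FP.T_C4.t_C4 a_FP_C2
theorem a_FP_C5 : Pool.Agent.H923R2.FP.S_C5 := Pool.Agent.H923R2.FP.T_C5.t_C5 
theorem a_FP_C6 : Pool.Agent.H923R2.FP.S_C6 := Pool.Agent.H923R2.FP.T_C6.t_C6 
theorem a_FP_N1 : Pool.Agent.H923R2.FP.S_N1 := Pool.Agent.H923R2.FP.T_N1.t_N1 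
theorem a_FP_N2 : Pool.Agent.H923R2.FP.S_N2 := Pool.Agent.H923R2.FP.T_N2.t_N2 
theorem a_FP_N3 : Pool.Agent.H923R2.FP.S_N3 := Pool.Agent.H923R2.FP.T_N3.t_N3 a_FP_T1 a_FP_N1 a_FP_N2
theorem a_FP_C1 : Pool.Agent.H923R2.FP.S_C1 := Pool.Agent.H923R2.FP.T_C1.t_C1 
theorem a_FP_MID : Pool.Agent.H923R2.FP.S_MID := Pool.Agent.H923R2.FP.T_MID.t_MID 
theorem a_FP_N4 : Pool.Agent.H923R2.FP.S_N4 := Pool.Agent.H923R2.FP.T_N4.t_N4 a_FP_C1 a_FP_MID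
theorem a_FP_AD : Pool.Agent.H923R2.FP.S_AD := Pool.Agent.H923R2.FP.T_AD.t_AD 
theorem a_FP_NI : Pool.Agent.H923R2.FP.S_NI := Pool.Agent.H923R2.FP.T_NI.t_NI a_FP_T1 a_FP_T2 a_FP_C6 a_FP_N3 a_FP_N4 a_FP_AD
theorem a_FP_FORM : Pool.Agent.H923R2.FP.S_FORM := Pool.Agent.H923R2.FP.T_FORM.t_FORM a_FP_AD
theorem a_FP_DIST : Pool.Agent.H923R2.FP.S_DIST := Pool.Agent.H923R2.FP.T_DIST.t_DIST 
theorem a_FP_CW : Pool.Agent.H923R2.FP.S_CW := Pool.Agent.H923R2.FP.T_CW.t_CW a_FP_DIST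
theorem a_FP_EPS : Pool.Agent.H923R2.FP.S_EPS := Pool.Agent.H923R2.FP.T_EPS.t_EPS 
theorem a_FP_HX : Pool.Agent.H923R2.FP.S_HX := Pool.Agent.H923R2.FP.T_HX.t_HX 
theorem a_FP_F1a : Pool.Agent.H923R2.FP.S_F1a := Pool.Agent.H923R2.FP.T_F1a.t_F1a 
theorem a_FP_F1b : Pool.Agent.H923R2.FP.S_F1b := Pool.Agent.H923R2.FP.T_F1b.t_F1b 
theorem a_FP_F1 : Pool.Agent.H923R2.FP.S_F1 := Pool.Agent.H923R2.FP.T_F1.t_F1 a_FP_F1a a_FP_F1b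
theorem a_FP_PH : Pool.Agent.H923R2.FP.S_PH := Pool.Agent.H923R2.FP.T_PH.t_PH 
theorem a_FP_KEY : Pool.Agent.H923R2.FP.S_KEY := Pool.Agent.H923R2.FP.T_KEY.t_KEY a_FP_F1 a_FP_PH a_FP_MID
theorem a_FP_STAR : Pool.Agent.H923R2.FP.S_STAR := Pool.Agent.H923R2.FP.T_STAR.t_STAR a_FP_KEY
theorem a_FP_DERSD : Pool.Agent.H923R2.FP.S_DERSD := Pool.Agent.H923R2.FP.T_DERSD.t_DERSD 
theorem a_FP_TI : Pool.Agent.H923R2.FP.S_TI := Pool.Agent.H923R2.FP.T_TI.t_TI a_FP_DERSD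
theorem a_FP_ODE : Pool.Agent.H923R2.FP.S_ODE := Pool.Agent.H923R2.FP.T_ODE.t_ODE 
theorem a_FP_LIP : Pool.Agent.H923R2.FP.S_LIP := Pool.Agent.H923R2.FP.T_LIP.t_LIP 
theorem a_FP_FLOW : Pool.Agent.H923R2.FP.S_FLOW := Pool.Agent.H923R2.FP.T_FLOW.t_FLOW a_FP_ODE a_FP_LIP
theorem a_FP_WDER : Pool.Agent.H923R2.FP.S_WDER := Pool.Agent.H923R2.FP.T_WDER.t_WDER 
theorem a_FP_BND : Pool.Agent.H923R2.FP.S_BND := Pool.Agent.H923R2.FP.T_BND.t_BND 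
theorem a_FP_LAW : Pool.Agent.H923R2.FP.S_LAW := Pool.Agent.H923R2.FP.T_LAW.t_LAW a_FP_BND a_FP_WDER
theorem a_FP_BACK : Pool.Agent.H923R2.FP.S_BACK := Pool.Agent.H923R2.FP.T_BACK.t_BACK a_FP_LIP
theorem a_FP_TRF : Pool.Agent.H923R2.FP.S_TRF := Pool.Agent.H923R2.FP.T_TRF.t_TRF 
theorem a_FP_STAGE : Pool.Agent.H923R2.FP.S_STAGE := Pool.Agent.H923R2.FP.T_STAGE.t_STAGE a_FP_C3 a_FP_C4 a_FP_C5 a_FP_NI a_FP_AD a_FP_FORM a_FP_CW a_FP_EPS a_FP_HX a_FP_STAR a_FP_TI a_FP_FLOW a_FP_WDER a_FP_LAW a_FP_BACK a_FP_TRF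
theorem a_FP_LIM2 : Pool.Agent.H923R2.FP.S_LIM2 := Pool.Agent.H923R2.FP.T_LIM2.t_LIM2 
theorem a_FP_ABSE : Pool.Agent.H923R2.FP.S_ABSE := Pool.Agent.H923R2.FP.T_ABSE.t_ABSE a_FP_ABS1 a_FP_ABS2 a_FP_ABS3 a_FP_ABS4E a_FP_STAGE a_FP_TRF a_FP_LIM2 a_FP_PHI
theorem a_FP_SEP : Pool.Agent.H923R2.FP.S_SEP := Pool.Agent.H923R2.FP.T_SEP.t_SEP 
theorem a_FZ_ABSIS : Pool.Agent.H923R2.FZ.S_ABSIS := Pool.Agent.H923R2.FZ.T_ABSIS.t_ABSIS a_FP_ABSE a_FP_SEP a_FZ_SUB a_FZ_GRP2 a_FZ_CLO a_FZ_UNG2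
theorem a_FZ_ABSI : Pool.Agent.H923R2.FZ.S_ABSI := Pool.Agent.H923R2.FZ.T_ABSI.t_ABSI a_FZ_ABSIS
theorem a_FZ_SEPW : Pool.Agent.H923R2.FZ.S_SEPW := Pool.Agent.H923R2.FZ.T_SEPW.t_SEPW 
theorem a_FZ_EXG : Pool.Agent.H923R2.FZ.S_EXG := Pool.Agent.H923R2.FZ.T_EXG.t_EXG 
theorem a_FZ_AMP : Pool.Agent.H923R2.FZ.S_AMP := Pool.Agent.H923R2.FZ.T_AMP.t_AMP 
theorem a_FZ_EXL : Pool.Agent.H923R2.FZ.S_EXL := Pool.Agent.H923R2.FZ.T_EXL.t_EXL a_FZ_AMP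
theorem a_FZ_EXF : Pool.Agent.H923R2.FZ.S_EXF := Pool.Agent.H923R2.FZ.T_EXF.t_EXF 
theorem a_FZ_EXC : Pool.Agent.H923R2.FZ.S_EXC := Pool.Agent.H923R2.FZ.T_EXC.t_EXC 
theorem a_FZ_TRC : Pool.Agent.H923R2.FZ.S_TRC := Pool.Agent.H923R2.FZ.T_TRC.t_TRC 
theorem a_FZ_EX : Pool.Agent.H923R2.FZ.S_EX := Pool.Agent.H923R2.FZ.T_EX.t_EX a_FZ_EXG a_FZ_EXL a_FZ_EXF a_FZ_EXC a_FZ_TRC
theorem a_FZ_LEBF : Pool.Agent.H923R2.FZ.S_LEBF := Pool.Agent.H923R2.FZ.T_LEBF.t_LEBF 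
theorem a_FZ_EXW : Pool.Agent.H923R2.FZ.S_EXW := Pool.Agent.H923R2.FZ.T_EXW.t_EXW a_FZ_EX a_FZ_LEBF
theorem a_FZ_ZERO : Pool.Agent.H923R2.FZ.S_ZERO := Pool.Agent.H923R2.FZ.T_ZERO.t_ZERO 
theorem a_FZ_SPL : Pool.Agent.H923R2.FZ.S_SPL := Pool.Agent.H923R2.FZ.T_SPL.t_SPL 
theorem a_FP_MOM : Pool.Agent.H923R2.FP.S_MOM := Pool.Agent.H923R2.FP.T_MOM.t_MOM 
theorem a_FP_NRM : Pool.Agent.H923R2.FP.S_NRM := Pool.Agent.H923R2.FP.T_NRM.t_NRM 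
theorem a_FP_UNIQ : Pool.Agent.H923R2.FP.S_UNIQ := Pool.Agent.H923R2.FP.T_UNIQ.t_UNIQ a_FP_MOM a_FP_NRM
theorem a_FZ_MAINZ : Pool.Agent.H923R2.FZ.S_MAINZ := Pool.Agent.H923R2.FZ.T_MAINZ.t_MAINZ a_FZ_CJZ a_FZ_HOT a_FZ_ABSI a_FZ_SEPW a_FZ_EXW a_FZ_ZERO a_FZ_SPL a_FP_UNIQ
theorem a_FZ_GNSF : Pool.Agent.H923R2.FZ.S_GNSF := Pool.Agent.H923R2.FZ.T_GNSF.t_GNSF a_FZ_TRC
theorem a_FZ_GNSB : Pool.Agent.H923R2.FZ.S_GNSB := Pool.Agent.H923R2.FZ.T_GNSB.t_GNSB 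

theorem final : Pool.Agent.H923R2.FZ.S_FINAL := finJS a_FZ_MAINZ a_FZ_EX a_FZ_GNSF a_FZ_GNSB a_FZ_LEBF

end Pool.Agent.H308R2.ZS.Chk
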