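import Pool.Agent.H308R2.ZS.Stubs

set_option autoImplicit false

open scoped ComplexConjugate Kronecker Matrix.Norms.L2Operator

noncomputable section

namespace Pool.Agent.H308R2.ZS

/-- `lft` as a linear map -/
def lftL (n : ℕ) : Matrix (Fin (n + 1)) (Fin (n + 1)) ℂ →ₗ[ℂ] MM n where
  toFun := lft n
  map_add' x y := (lft_add n x y).symm
  map_smul' c x := lft_smul n c x

/-- `rgt` as a linear map -/
def rgtL (n : ℕ) : Matrix (Fin (n + 2)) (Fin (n + 2)) ℂ →ₗ[ℂ] MM n where
  toFun := rgt n
  map_add' x y := (rgt_add n x y).symm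
  map_smul' c x := rgt_smul n c x

lemma dimDrop_closed (n : ℕ) : IsClosed (dimDrop n : Set C(unitInterval, MM n)) := by
  have h1 : IsClosed ((LinearMap.range (lftL n) : Submodule ℂ (MM n)) : Set (MM n)) :=
    Submodule.closed_of_finiteDimensional _
  have h2 : IsClosed ((LinearMap.range (rgtL n) : Submodule ℂ (MM n)) : Set (MM n)) :=
    Submodule.closed_of_finiteDimensional _
  have e0 : Continuous fun F : C(unitInterval, MM n) => F 0 := continuous_eval_const (F := C(unitInterval, MM n)) 0
  have e1 : Continuous fun F : C(unitInterval, MM n) => F 1 := continuous_eval_const (F := C(unitInterval, MM n)) 1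
  have : (dimDrop n : Set C(unitInterval, MM n)) =
      (fun F : C(unitInterval, MM n) => F 0) ⁻¹' ((LinearMap.range (lftL n) : Submodule ℂ (MM n)) :
        Set (MM n)) ∩ (fun F : C(unitInterval, MM n) => F 1) ⁻¹'
        ((LinearMap.range (rgtL n) : Submodule ℂ (MM n)) : Set (MM n)) := by
    ext F
    constructor
    · rintro ⟨⟨x, hx⟩, y, hy⟩
      exact ⟨⟨x, hx.symm⟩, y, hy.symm⟩
    · rintro ⟨⟨x, hx⟩, y, hy⟩
      exact ⟨⟨x, hx.symm⟩, y, hy.symm⟩
  rw [this]
  exact (h1.preimage e0).inter (h2.preimage e1)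

end Pool.Agent.H308R2.ZS
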