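import Pool.Agent.H923R2.FZ.Defs

/-!
MP_118406_an: the Jiang–Su algebra, its generators, its Lebesgue subalgebra; existence of reduced
free products.  Definitions.
-/

set_option autoImplicit false

open scoped ComplexConjugate Kronecker Matrix.Norms.L2Operator

noncomputable section

namespace Pool.Agent.H308R2.ZS

open Pool.Agent.H923R2.FP Pool.Agent.H923R2.FZ

/-! ### Dimension drop algebras and the Jiang–Su algebra -/

/-- index type of the matrices of size `(n+1)(n+2)` -/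
abbrev Ix (n : ℕ) : Type := Fin (n + 1) × Fin (n + 2)

/-- the C*-algebra `M_{n+1} ⊗ M_{n+2}` (with the operator norm) -/
abbrev MM (n : ℕ) : Type := Matrix (Ix n) (Ix n) ℂ

/-- `x ⊗ 1` -/
def lft (n : ℕ) (x : Matrix (Fin (n + 1)) (Fin (n + 1)) ℂ) : MM n :=
  x ⊗ₖ (1 : Matrix (Fin (n + 2)) (Fin (n + 2)) ℂ)

/-- `1 ⊗ y` -/
def rgt (n : ℕ) (y : Matrix (Fin (n + 2)) (Fin (n + 2)) ℂ) : MM n :=
  (1 : Matrix (Fin (n + 1)) (Fin (n + 1)) ℂ) ⊗ₖ y

lemma lft_mul (n : ℕ) (x y : Matrix (Fin (n + 1)) (Fin (n + 1)) ℂ) :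
    lft n x * lft n y = lft n (x * y) := by
  have := Matrix.mul_kronecker_mul x y (1 : Matrix (Fin (n + 2)) (Fin (n + 2)) ℂ)
    (1 : Matrix (Fin (n + 2)) (Fin (n + 2)) ℂ)
  rw [mul_one] at this
  exact this.symm

lemma rgt_mul (n : ℕ) (x y : Matrix (Fin (n + 2)) (Fin (n + 2)) ℂ) :
    rgt n x * rgt n y = rgt n (x * y) := by
  have := Matrix.mul_kronecker_mul (1 : Matrix (Fin (n + 1)) (Fin (n + 1)) ℂ)
    (1 : Matrix (Fin (n + 1)) (Fin (n + 1)) ℂ) x y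
  rw [mul_one] at this
  exact this.symm

lemma lft_add (n : ℕ) (x y : Matrix (Fin (n + 1)) (Fin (n + 1)) ℂ) :
    lft n x + lft n y = lft n (x + y) :=
  (Matrix.add_kronecker x y (1 : Matrix (Fin (n + 2)) (Fin (n + 2)) ℂ)).symm

lemma rgt_add (n : ℕ) (x y : Matrix (Fin (n + 2)) (Fin (n + 2)) ℂ) :
    rgt n x + rgt n y = rgt n (x + y) :=
  (Matrix.kronecker_add (1 : Matrix (Fin (n + 1)) (Fin (n + 1)) ℂ) x y).symm

lemma lft_star (n : ℕ) (x : Matrix (Fin (n + 1)) (Fin (n + 1)) ℂ) :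
    star (lft n x) = lft n (star x) := by
  have := Matrix.conjTranspose_kronecker x (1 : Matrix (Fin (n + 2)) (Fin (n + 2)) ℂ)
  rw [Matrix.conjTranspose_one] at this
  exact this

lemma rgt_star (n : ℕ) (x : Matrix (Fin (n + 2)) (Fin (n + 2)) ℂ) :
    star (rgt n x) = rgt n (star x) := by
  have := Matrix.conjTranspose_kronecker (1 : Matrix (Fin (n + 1)) (Fin (n + 1)) ℂ) x
  rw [Matrix.conjTranspose_one] at this
  exact this

lemma lft_one (n : ℕ) : lft n 1 = 1 := Matrix.one_kronecker_one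

lemma rgt_one (n : ℕ) : rgt n 1 = 1 := Matrix.one_kronecker_one

lemma lft_smul (n : ℕ) (c : ℂ) (x : Matrix (Fin (n + 1)) (Fin (n + 1)) ℂ) :
    lft n (c • x) = c • lft n x := Matrix.smul_kronecker c _ _

lemma rgt_smul (n : ℕ) (c : ℂ) (x : Matrix (Fin (n + 2)) (Fin (n + 2)) ℂ) :
    rgt n (c • x) = c • rgt n x := Matrix.kronecker_smul c _ _

/-- the prime dimension drop algebra `Z_{n+1,n+2}`: continuous functions `F` from `[0,1]` to
`M_{n+1} ⊗ M_{n+2}` with `F(0) ∈ M_{n+1} ⊗ 1` and `F(1) ∈ 1 ⊗ M_{n+2}` -/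
def dimDrop (n : ℕ) : StarSubalgebra ℂ C(unitInterval, MM n) where
  carrier := {F | (∃ x, F 0 = lft n x) ∧ ∃ y, F 1 = rgt n y}
  mul_mem' := by
    rintro F G ⟨⟨x, hx⟩, y, hy⟩ ⟨⟨x', hx'⟩, y', hy'⟩
    exact ⟨⟨x * x', by rw [ContinuousMap.mul_apply, hx, hx', lft_mul]⟩,
      y * y', by rw [ContinuousMap.mul_apply, hy, hy', rgt_mul]⟩
  add_mem' := by
    rintro F G ⟨⟨x, hx⟩, y, hy⟩ ⟨⟨x', hx'⟩, y', hy'⟩
    exact ⟨⟨x + x', by rw [ContinuousMap.add_apply, hx, hx', lft_add]⟩,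
      y + y', by rw [ContinuousMap.add_apply, hy, hy', rgt_add]⟩
  algebraMap_mem' := fun c =>
    ⟨⟨c • 1, by rw [lft_smul, lft_one, Algebra.algebraMap_eq_smul_one]; rfl⟩,
      c • 1, by rw [rgt_smul, rgt_one, Algebra.algebraMap_eq_smul_one]; rfl⟩
  star_mem' := by
    rintro F ⟨⟨x, hx⟩, y, hy⟩
    exact ⟨⟨star x, by rw [ContinuousMap.star_apply, hx, lft_star]⟩,
      star y, by rw [ContinuousMap.star_apply, hy, rgt_star]⟩

/-- tracial state on a unital `*`-algebra -/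
structure TS {B : Type} [Ring B] [StarRing B] [Algebra ℂ B] (τ : B →ₗ[ℂ] ℂ) : Prop where
  one : τ 1 = 1
  comm : ∀ x y, τ (x * y) = τ (y * x)
  pos : ∀ x, 0 ≤ (τ (star x * x)).re ∧ (τ (star x * x)).im = 0

/-- `(Z, τ)` is the Jiang–Su algebra with its trace: a simple unital C*-algebra with a unique
tracial state which is the closure of an increasing union of subalgebras isomorphic to prime
dimension drop algebras -/
structure IsJiangSu (Z : Type) [CStarAlgebra Z] (τ : Z →ₗ[ℂ] ℂ) : Prop where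
  simple : ∀ I : Submodule ℂ Z, IsClosed (I : Set Z) → (∀ x ∈ I, ∀ y z, y * x * z ∈ I) →
    I = ⊥ ∨ I = ⊤
  trace : TS τ
  uniq : ∀ τ' : Z →ₗ[ℂ] ℂ, TS τ' → τ' = τ
  lim : ∃ (n : ℕ → ℕ) (D : ℕ → StarSubalgebra ℂ Z), Monotone D ∧
    Filter.Tendsto n Filter.atTop Filter.atTop ∧ (∀ k, IsClosed (D k : Set Z)) ∧
    (∀ k, Nonempty (dimDrop (n k) ≃⋆ₐ[ℂ] D k)) ∧ Dense (⋃ k, (D k : Set Z))

/-! ### The generators `φ`, `v` -/

/-- the flip `(i, k) ↔ (k, i)` for `k < n+1`; it fixes `(i, last)` -/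
def flp (n : ℕ) (p : Ix n) : Ix n :=
  Fin.lastCases (motive := fun _ => Ix n) (p.1, Fin.last (n + 1))
    (fun k => (k, p.1.castSucc)) p.2

/-- permutation matrix of the flip -/
def PF (n : ℕ) : MM n := Matrix.of fun p q => if q = flp n p then 1 else 0

/-- the path of unitaries from `1` to the flip -/
def WW (n : ℕ) (t : ℝ) : MM n :=
  ((1 + Complex.exp (Complex.I * Real.pi * t)) / 2) • (1 : MM n) +
    ((1 - Complex.exp (Complex.I * Real.pi * t)) / 2) • PF n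

/-- `e_{ij} ⊗ diag(1,…,1,c)` -/
def D0 (n : ℕ) (i j : Fin (n + 1)) (c : ℝ) : MM n :=
  Matrix.of fun p q =>
    if p.1 = i ∧ q.1 = j ∧ p.2 = q.2 then (if p.2 = Fin.last (n + 1) then (c : ℂ) else 1) else 0

/-- `c ∑_k e_{0k} ⊗ f_{k,last}` -/
def V0 (n : ℕ) (c : ℝ) : MM n :=
  Matrix.of fun p q =>
    if p.1 = 0 ∧ q.2 = Fin.last (n + 1) ∧ p.2 = q.1.castSucc then (c : ℂ) else 0

/-- values of `φ(e_{ij})` -/
def phf (n : ℕ) (i j : Fin (n + 1)) (t : ℝ) : MM n := WW n t * D0 n i j (1 - t) * star (WW n t)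

/-- values of the square root of `φ(e_{ii})` -/
def khf (n : ℕ) (i : Fin (n + 1)) (t : ℝ) : MM n :=
  WW n t * D0 n i i (Real.sqrt (1 - t)) * star (WW n t)

/-- values of `v` -/
def vhf (n : ℕ) (t : ℝ) : MM n := WW n t * V0 n (Real.sqrt t) * star (WW n t)

/-- normalized trace -/
def ntr {ι : Type} [Fintype ι] (M : Matrix ι ι ℂ) : ℂ := (∑ p, M p p) / (Fintype.card ι : ℂ)

/-! ### Atoms -/

/-- all atoms of the law of `x` are smaller than `ε` -/
def AT {B : Type} [CStarAlgebra B] (τ : B →ₗ[ℂ] ℂ) (ε : ℝ) (x : B) : Prop :=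
  ∀ c : ℝ, ∃ F : ℝ → ℝ, Continuous F ∧ (∀ t, 0 ≤ F t) ∧ F c = 1 ∧ (τ (cfc F x)).re < ε

end Pool.Agent.H308R2.ZS
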