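import Pool.Agent.H308R2.ZS.Closed
import Pool.Agent.H923R2.FZ.Stubs2

set_option autoImplicit false

open scoped ComplexConjugate Kronecker Matrix.Norms.L2Operator
open MeasureTheory

noncomputable section

namespace Pool.Agent.H308R2.ZS

open Pool.Agent.H923R2.FP Pool.Agent.H923R2.FZ

/-- the Jiang–Su algebra is approximated by Rørdam–Winter systems; uses JFT JSTR -/
def S_RWAZ : Prop := ∀ (Z : Type) [CStarAlgebra Z] (τ : Z →ₗ[ℂ] ℂ), IsJiangSu Z τ → RWA τ

/-- the Jiang–Su algebra is separable -/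
def S_SEPZ : Prop := ∀ (Z : Type) [CStarAlgebra Z] (τ : Z →ₗ[ℂ] ℂ), IsJiangSu Z τ →
  TopologicalSpace.SeparableSpace Z

theorem t_RWAZ (h1 : S_JFT) (h2 : S_JSTR) : S_RWAZ := by
  intro Z _ τ hZ G ε hε
  obtain ⟨n, D, φ, v, hmono, -, -, hdense, -, -, -, hgen, hB⟩ := h2 Z τ hZ
  have hF := h1 Z τ hZ
  have key : ∃ k, ∀ g ∈ G, ∃ y ∈ D k, ‖g - y‖ < ε / 2 := by
    classical
    induction G using Finset.induction_on with
    | empty => exact ⟨0, by simp⟩
    | insert a s has ih =>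
      obtain ⟨k, hk⟩ := ih
      have := hdense.exists_dist_lt a (half_pos hε)
      obtain ⟨y, hy, hd⟩ := this
      obtain ⟨l, hl⟩ := Set.mem_iUnion.1 hy
      refine ⟨max k l, ?_⟩
      intro g hg
      rcases Finset.mem_insert.1 hg with rfl | hg
      · exact ⟨y, hmono (le_max_right k l) hl, by rwa [← dist_eq_norm]⟩
      · obtain ⟨z, hz, hzd⟩ := hk g hg
        exact ⟨z, hmono (le_max_left k l) hz, hzd⟩
  obtain ⟨k, hk⟩ := key
  have hBk := hB Z τ hF (StarAlgHom.id ℂ Z) (fun _ _ h => h) k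
  refine ⟨n k, φ k, v k, hBk.1, hBk.2, ?_⟩
  intro g hg
  obtain ⟨y, hy, hyd⟩ := hk g hg
  have h3 := hgen k hy
  have h4 : y ∈ closure ((StarAlgebra.adjoin ℂ
      ((Set.range fun p : Fin (n k + 1) × Fin (n k + 1) => φ k p.1 p.2) ∪ {v k}) :
      StarSubalgebra ℂ Z) : Set Z) := h3
  obtain ⟨z, hz, hzd⟩ := Metric.mem_closure_iff.1 h4 (ε / 2) (half_pos hε)
  refine ⟨z, hz, ?_⟩
  calc ‖g - z‖ = ‖(g - y) + (y - z)‖ := by congr 1; abel
    _ ≤ ‖g - y‖ + ‖y - z‖ := norm_add_le _ _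
    _ < ε / 2 + ε / 2 := by
        have : ‖y - z‖ < ε / 2 := by rwa [← dist_eq_norm]
        linarith
    _ = ε := by ring

theorem t_SEPZ : S_SEPZ := by
  intro Z _ τ hZ
  obtain ⟨n, D, hmono, -, hcl, hiso, hdense⟩ := hZ.lim
  have hsep : ∀ k, TopologicalSpace.IsSeparable (D k : Set Z) := by
    intro k
    obtain ⟨Θ⟩ := hiso k
    have hs : TopologicalSpace.SeparableSpace (dimDrop (n k)) := inferInstance
    have := dimDrop_closed (n k)
    have := hcl k
    have hc : Continuous fun x : dimDrop (n k) => ((Θ x : D k) : Z) := by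
      refine continuous_subtype_val.comp ?_
      let Ψ : dimDrop (n k) →⋆ₐ[ℂ] D k := (Θ : dimDrop (n k) →⋆ₐ[ℂ] D k)
      have hb : ∀ x : dimDrop (n k), ‖Ψ x‖ ≤ ‖x‖ := fun x => NonUnitalStarAlgHom.norm_apply_le Ψ x
      exact (AddMonoidHomClass.continuous_of_bound Ψ 1 fun x => by simpa using hb x)
    have hr : Set.range (fun x : dimDrop (n k) => ((Θ x : D k) : Z)) = (D k : Set Z) := by
      ext z
      constructor
      · rintro ⟨x, rfl⟩
        exact (Θ x).2
      · intro hz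
        exact ⟨Θ.symm ⟨z, hz⟩, by simp⟩
    rw [← hr]
    exact TopologicalSpace.isSeparable_range hc
  have : TopologicalSpace.IsSeparable (Set.univ : Set Z) := by
    have h1 : TopologicalSpace.IsSeparable (⋃ k, (D k : Set Z)) :=
      TopologicalSpace.IsSeparable.iUnion hsep
    have h2 := h1.closure
    rwa [hdense.closure_eq] at h2
  exact TopologicalSpace.isSeparable_univ_iff.1 this

end Pool.Agent.H308R2.ZS
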