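import Pool.Agent.H308R2.ZS.Bridge
import Pool.Agent.H308R2.ZS.TRWAZ

/-! The final assembly of MP_118406_an. -/

set_option autoImplicit false

open scoped ComplexConjugate ComplexOrder Kronecker Matrix.Norms.L2Operator

noncomputable section

namespace Pool.Agent.H308R2.ZS

open Pool.Agent.H923R2.FP

/-- the Lebesgue state as a linear map -/
def lebl : C(unitInterval, ℂ) →ₗ[ℂ] ℂ where
  toFun := leb
  map_add' f g := by
    simp only [leb, ContinuousMap.add_apply]
    exact MeasureTheory.integral_add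
      (f.continuous.integrable_of_hasCompactSupport (HasCompactSupport.of_compactSpace _))
      (g.continuous.integrable_of_hasCompactSupport (HasCompactSupport.of_compactSpace _))
  map_smul' c f := by
    simp only [leb, ContinuousMap.smul_apply, RingHom.id_apply, smul_eq_mul]
    exact MeasureTheory.integral_const_mul c _

theorem fts_lebl (h : Pool.Agent.H923R2.FZ.S_LEBF) : FTS lebl := by
  obtain ⟨l, hl, hx⟩ := h
  have : l = lebl := LinearMap.ext fun x => hx x
  rwa [this] at hl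

theorem t_FINAL (hMAINZ : Pool.Agent.H923R2.FZ.S_MAINZ) (hEX : Pool.Agent.H923R2.FZ.S_EX)
    (hGF : Pool.Agent.H923R2.FZ.S_GNSF) (hGB : Pool.Agent.H923R2.FZ.S_GNSB) (hLBF : Pool.Agent.H923R2.FZ.S_LEBF)
    (hJFT : S_JFT) (hJSTR : S_JSTR) (hLEB : S_LEB) : Pool.Agent.H923R2.FZ.S_FINAL := by
  have hLF : FTS lebl := fts_lebl hLBF
  intro Z _ hZ
  obtain ⟨t0, ht0, ht0u⟩ := hZ.trace
  refine ⟨?_, ?_, ?_⟩
  · intro k t ht
    have hF := hJFT Z t (bridge Z hZ t ht)
    obtain ⟨A, iA, τ, e, h⟩ := hEX (Fin k) (fun _ => Z) (fun _ => inferInstance) (fun _ => t)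
      (fun _ => hF)
    exact ⟨A, iA, τ, e, hGB (Fin k) (fun _ => Z) (fun _ => (t : Z → ℂ)) A τ e h⟩
  · intro l
    obtain ⟨A, iA, τ, e, h⟩ := hEX (Fin l) (fun _ => C(unitInterval, ℂ))
      (fun _ => inferInstance) (fun _ => lebl) (fun _ => hLF)
    exact ⟨A, iA, τ, e, hGB (Fin l) (fun _ => C(unitInterval, ℂ)) (fun _ => leb) A τ e h⟩
  · obtain ⟨W, iW, τW, g, hW⟩ := hEX ℕ (fun _ => C(unitInterval, ℂ))
      (fun _ => inferInstance) (fun _ => lebl) (fun _ => hLF)
    have hsep : TopologicalSpace.SeparableSpace Z := t_SEPZ Z t0 (bridge Z hZ t0 ht0)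
    have key : ∀ (A : Type) [CStarAlgebra A], Pool.Agent.H923R2.FZ.InF Z A →
        Nonempty (A ≃⋆ₐ[ℂ] W) := by
      intro A _ hA
      rcases hA with ⟨k, t, φ, e, hk, ht, hR⟩ | ⟨l, φ, e, hl, hR⟩
      · have hJ := bridge Z hZ t ht
        have hF := hJFT Z t hJ
        obtain ⟨c, hc⟩ := hLEB Z t hJ
        have hR' := hGF (Fin k) (fun _ => Z) (fun _ => (t : Z → ℂ)) A φ e
          (fun _ x y => ht.2.1 x y) hR
        exact (hMAINZ Z t hF (t_RWAZ hJFT hJSTR Z t hJ) c hc W τW g hW).1 k hk A φ e hR'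
      · have hJ := bridge Z hZ t0 ht0
        have hF := hJFT Z t0 hJ
        obtain ⟨c, hc⟩ := hLEB Z t0 hJ
        have hR' := hGF (Fin l) (fun _ => C(unitInterval, ℂ)) (fun _ => leb) A φ e
          (fun _ x y => by rw [mul_comm]) hR
        exact (hMAINZ Z t0 hF (t_RWAZ hJFT hJSTR Z t0 hJ) c hc W τW g hW).2 l hl A φ e hR'
    intro A B _ _ hA hB
    obtain ⟨f⟩ := key A hA
    obtain ⟨g'⟩ := key B hB
    exact ⟨f.trans g'.symm⟩

end Pool.Agent.H308R2.ZS
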