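import Pool.Agent.H308R2.ZS.All
import Pool.Agent.H308R2.ZS.Final

namespace Pool.Agent.H308R2.ZS

theorem finJS (hMAINZ : Pool.Agent.H923R2.FZ.S_MAINZ) (hEX : Pool.Agent.H923R2.FZ.S_EX)
    (hGF : Pool.Agent.H923R2.FZ.S_GNSF) (hGB : Pool.Agent.H923R2.FZ.S_GNSB)
    (hLBF : Pool.Agent.H923R2.FZ.S_LEBF) : Pool.Agent.H923R2.FZ.S_FINAL :=
  t_FINAL hMAINZ hEX hGF hGB hLBF all_JFT all_JSTR all_LEB

end Pool.Agent.H308R2.ZS
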